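import Pool.Agent.H.MP_89dd65_gt.Comp

namespace Pool.Agent.H.MP_89dd65_gt

open Finset Equiv

theorem sp_eq (h : ℕ) : ∀ (m : ℕ) (t : Fin m → ℕ) (G : ℕ → List ℕ → ℤ),
    sp h (List.ofFn t) G = ∑ q, G (t q) (List.ofFn (Function.update t q h))
  | 0, _, _ => by simp [sp]
  | m + 1, t, G => by
    rw [List.ofFn_succ, sp, sp_eq h m, Fin.sum_univ_succ]
    change (_ : ℤ) + (_ : ℤ) = _
    congr 1
    · simp [List.ofFn_succ]
    · refine sum_congr rfl fun q _ => ?_
      rw [List.ofFn_succ, Function.update_of_ne (Fin.succ_ne_zero _).symm]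
      congr 3
      funext i
      simp [Function.update_apply]

def A : ℕ → List ℕ → (List ℕ → ℤ) → ℤ
  | 0, _, F => F []
  | m + 1, l, F => pk l fun b l' => A m l' fun r => F (b :: r)

theorem alt : ∀ (m : ℕ) (x : Fin m → ℕ) (F : List ℕ → ℤ),
    ∑ σ : Perm (Fin m), (Perm.sign σ : ℤ) * F (List.ofFn fun i => x (σ i)) = A m (List.ofFn x) F
  | 0, x, F => by simp [A]
  | m + 1, x, F => by
    rw [univ_perm_fin_succ, sum_map, Fintype.sum_prod_type, Fin.sum_univ_succ, A, List.ofFn_succ, pk,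
      sp_eq]
    change _ = (_ : ℤ) - (_ : ℤ)
    rw [sub_eq_add_neg, ← sum_neg_distrib]
    congr 1
    · rw [← alt m]
      refine sum_congr rfl fun σ _ => ?_
      simp [List.ofFn_succ]
    · refine sum_congr rfl fun q _ => ?_
      rw [← alt m, ← sum_neg_distrib]
      refine sum_congr rfl fun σ _ => ?_
      have : ∀ i, x (swap 0 q.succ (σ i).succ) = Function.update (fun i => x i.succ) q (x 0) (σ i) := by
        intro i
        by_cases h : σ i = q
        · simp [h]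
        · rw [swap_apply_of_ne_of_ne (Fin.succ_ne_zero _) (by simpa using h), Function.update_of_ne h]
      simp [List.ofFn_succ, this, Fin.succ_ne_zero]

theorem sp_mul (c : ℤ) (h : ℕ) : ∀ (t : List ℕ) (G : ℕ → List ℕ → ℤ),
    sp h t (fun a l => c * G a l) = c * sp h t G
  | [], _ => by simp [sp]
  | b :: t, G => by
    rw [sp, sp, sp_mul c h t]
    exact (mul_add _ _ _).symm

theorem pk_mul (c : ℤ) : ∀ (t : List ℕ) (G : ℕ → List ℕ → ℤ),
    pk t (fun a l => c * G a l) = c * pk t G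
  | [], _ => by simp [pk]
  | b :: t, G => by
    rw [pk, pk, sp_mul]
    exact (mul_sub _ _ _).symm

theorem A_mul (c : ℤ) : ∀ (m : ℕ) (l : List ℕ) (F : List ℕ → ℤ),
    A m l (fun r => c * F r) = c * A m l F
  | 0, _, _ => rfl
  | m + 1, l, F => by simp only [A, A_mul c m, pk_mul]

theorem om_eq (T a b c : ℕ) (X : ℤ) : om T a b c X = om T a b c 1 * X := by
  unfold om
  dsimp only
  generalize Nat.beq _ 0 = u
  generalize Nat.beq _ 1 = v
  cases u <;> cases v <;> simp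
  exact (neg_one_mul X).symm

def ch : List ℕ → ℕ → List ℕ → ℤ
  | T :: Ts, a, b :: c :: r => om T a b c 1 * ch Ts c r
  | _, _, _ => 1

theorem R_eq : ∀ (Ts : List ℕ) (a : ℕ) (l : List ℕ), R Ts a l = A (2 * Ts.length) l (ch Ts a)
  | [], _, _ => rfl
  | T :: Ts, a, l => by
    rw [R, List.length_cons, Nat.mul_succ, A]
    simp only [A, ch, A_mul, ← R_eq Ts]
    simp only [← om_eq]

theorem sum9 (T : Fin 4 → ℕ) :
    ∑ σ : Perm (Fin 9), (Perm.sign σ : ℤ) * (om (T 0) (σ 0) (σ 1) (σ 2) 1 * (om (T 1) (σ 2) (σ 3) (σ 4) 1 *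
      (om (T 2) (σ 4) (σ 5) (σ 6) 1 * om (T 3) (σ 6) (σ 7) (σ 8) 1))) =
    pk [0, 1, 2, 3, 4, 5, 6, 7, 8] (R [T 0, T 1, T 2, T 3]) := by
  have := alt 9 Fin.val fun l => ch [T 0, T 1, T 2, T 3] (l.headD 0) l.tail
  rw [A] at this
  simp only [List.headD_cons, List.tail_cons] at this
  have e : R [T 0, T 1, T 2, T 3] = fun b l => A 8 l (ch [T 0, T 1, T 2, T 3] b) :=
    funext₂ fun b l => R_eq _ _ _
  rw [e]
  refine Eq.trans ?_ this
  refine sum_congr rfl fun σ _ => ?_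
  simp [List.ofFn_succ, ch]

end Pool.Agent.H.MP_89dd65_gt
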